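import Pool.Agent.X171.StrictDaug

/-!
# A strictly convex Banach space with a Daugavet point (Q1 of MP_7c844e_an)

The space is the space `c` of the convergent real sequences `z = L + u` (`L` the limit, `u ∈ c_0`)
with the norm `max (Q_∞ z, sup_m Q_m z)`, where `Q_∞(z)² = L² + |T u|²`,
`Q_m(z)² = z_m² + 4^(-m-1) |T u|²` and `T u = (2^(-k-1) u_k)_k ∈ ℓ_2`. It is equivalent to the
supremum norm.

* Strict convexity: `Q_m(z) → |L| ≤ Q_∞(z)`, so the supremum is attained, and all `Q_m` and `Q_∞` are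
  given by inner products (the parallelogram law).
* The constant sequence `1` is a Daugavet point: if `‖v‖ < 1`, then for large `m` the sequence which
  one gets from `v` if one changes the `m`-th term to `-(1 - η)` is in the unit ball, its distance to
  `1` is at least `2 - η`, and these sequences converge weakly to `v`.
-/

set_option autoImplicit false

open Set Metric

namespace Pool.Agent.Results.MP_7c844e_an.StrictlyConvexDaugavet

variable {X : Type*} [NormedAddCommGroup X] [NormedSpace ℝ X]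

/-- The slice `S(f, α)` of the closed unit ball (used for `‖f‖ = 1` and `α > 0`). -/
def slice (f : X →L[ℝ] ℝ) (α : ℝ) : Set X := {y | ‖y‖ ≤ 1 ∧ 1 - α < f y}

/-- `x` is a Daugavet point: `x` is in the unit sphere, and every slice of the closed unit ball
contains points `y` with `‖x - y‖ > 2 - ε`, for every `ε > 0`. -/
def IsDaugavetPoint (x : X) : Prop :=
  ‖x‖ = 1 ∧ ∀ (f : X →L[ℝ] ℝ) (α ε : ℝ), ‖f‖ = 1 → 0 < α → 0 < ε →
    ∃ y ∈ slice f α, 2 - ε < ‖x - y‖

variable (X) in
/-- The unit sphere contains no nontrivial segment. -/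
def IsStrictlyConvex : Prop := ∀ x y : X, ‖x‖ = 1 → ‖y‖ = 1 → ‖x + y‖ = 2 → x = y

/-- There is a strictly convex real Banach space with a Daugavet point. -/
theorem result : ∃ (X : Type) (_ : NormedAddCommGroup X) (_ : NormedSpace ℝ X)
    (_ : CompleteSpace X), IsStrictlyConvex X ∧ ∃ x : X, IsDaugavetPoint x := by
  refine ⟨Pool.Agent.X171.StrictDaug.X, inferInstance, inferInstance, inferInstance,
    Pool.Agent.X171.StrictDaug.strict, Pool.Agent.X171.StrictDaug.x0,
    Pool.Agent.X171.StrictDaug.norm_x0, ?_⟩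
  intro f α ε hf hα hε
  obtain ⟨v, hv1, hv2⟩ := f.exists_lt_apply_of_lt_opNorm (show 1 - α < ‖f‖ by linarith)
  obtain ⟨w, hw1, hw2⟩ : ∃ w, ‖w‖ < 1 ∧ 1 - α < f w := by
    rcases abs_cases (f v) with h | h
    · exact ⟨v, hv1, by rw [Real.norm_eq_abs, h.1] at hv2; exact hv2⟩
    · exact ⟨-v, by rwa [norm_neg], by rw [Real.norm_eq_abs, h.1] at hv2; rwa [map_neg]⟩
  obtain ⟨y, hy1, hy2, hy3⟩ := Pool.Agent.X171.StrictDaug.far hw1 f hw2
    (η := min (ε / 2) 1) (lt_min (by linarith) one_pos) (min_le_right _ _)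
  refine ⟨y, ⟨hy1, hy2⟩, ?_⟩
  have := min_le_left (ε / 2) 1
  linarith

end Pool.Agent.Results.MP_7c844e_an.StrictlyConvexDaugavet
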